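import Pool.Agent.Lib.MP_bd3808_ag.BS.Main

set_option autoImplicit false

open CategoryTheory AlgebraicGeometry

namespace Pool.Agent.Results.MP_bd3808_ag.InfinitelyManyOrbits

universe u w

open BS

/-- For every field `k` with an element `t ≠ 0` of infinite multiplicative order there is a Fano variety `X` of
dimension `5` over `k` such that the full exceptional systems (with `24` members) of `D^b(Coh X)`, up to shifts of
their members, fall into infinitely many orbits under the braid group action by mutations. -/
theorem result (k : Type u) [Field k] (t : k) (ht0 : t ≠ 0) (ht : ∀ n : ℕ, 0 < n → t ^ n ≠ 1) :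
    ∃ (X : Scheme.{u}) (_ : X.Over (Spec (.of k))) (_ : IsLocallyNoetherian X), IsFano k X 5 ∧
      ∀ [HasDerivedCategory.{w} (Coh X)], Infinite (DbOrbits k (Coh X) 24) :=
  BS.main k t ht0 ht

end Pool.Agent.Results.MP_bd3808_ag.InfinitelyManyOrbits
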