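import Pool.Agent.BraidOrbits.Steps

/-!
# Infinitely many orbits of numerically exceptional systems on `P^1 x P^2`

`K_0(X)` of the Fano threefold `X = P^1 x P^2`, with its Euler form: the systems of six
numerically exceptional classes that are semiorthogonal and generate `K_0(X)` fall into infinitely
many classes modulo mutations (the braid group on six strands), shifts of the members (signs) and
all isometries of the lattice `(K_0(X), chi)`.

Outline. There is an additive map `nu` from `K_0(X)` to the integer `2 x 2` matrices with
`chi(x,x) = det (nu x)`, under which a mutation of `(E, F)` becomes
`(v, w) -> (v * w^(-1) * v, v)` in `SL_2(Z)`. The group `SL_2(Z)` maps onto the wallpaper group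
`Z[w] : mu_6` (`w` a primitive third root of unity), the classes with `chi(x,x) = 1` land in the
part whose linear part is `1` or `-1`, and the oriented areas of the two triples of points of
`Z[w]` of equal linear sign give an invariant of systems that takes infinitely many values.
-/

namespace Pool.Agent.Results.MP_bd3808_ag.NumericalOrbits

open Pool.Agent.BraidOrbits

/-- On the Fano threefold `P^1 x P^2`, the numerically exceptional systems of maximal size form
infinitely many classes modulo mutations, shifts and isometries of `K_0`. -/
theorem result : Infinite Orbits := orbits_infinite

end Pool.Agent.Results.MP_bd3808_ag.NumericalOrbits
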